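import Pool.Agent.K3h33.CL.Fin
import Pool.Agent.K3h21.IR.Mer

/-! Clusters of almost primes in very short intervals. -/

set_option autoImplicit false

namespace Pool.Agent.K3h33.CL

open Finset Filter Polynomial
open Pool.Agent.Y677.RSZ (rt Sys)

theorem omega_le (N M : ℕ) (δ E : ℝ) (hN : 2 ≤ N) (hδ : 0 < δ) (hM : M ≠ 0)
    (h : ∀ p : ℕ, p.Prime → p ∣ M → (N : ℝ) ^ δ ≤ p) (hME : (M : ℝ) ≤ (N : ℝ) ^ E) :
    (M.primeFactorsList.length : ℝ) ≤ E / δ := by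
  have hNr : (2 : ℝ) ≤ N := by exact_mod_cast hN
  have hN0 : (0 : ℝ) < N := by linarith
  have hN1 : (1 : ℝ) < N := by linarith
  have key : ∀ Ls : List ℕ, (∀ p ∈ Ls, (N : ℝ) ^ δ ≤ p) →
      ((N : ℝ) ^ δ) ^ Ls.length ≤ ((Ls.prod : ℕ) : ℝ) := by
    intro Ls
    induction Ls with
    | nil => intro _; simp
    | cons a Ls ih =>
      intro h1
      have h2 := ih (fun p hp => h1 p (List.mem_cons_of_mem _ hp))
      have h3 := h1 a List.mem_cons_self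
      rw [List.length_cons, List.prod_cons, pow_succ, mul_comm]
      push_cast
      push_cast at h2
      exact mul_le_mul h3 h2 (by positivity) (Nat.cast_nonneg _)
  have h1 := key M.primeFactorsList (fun p hp =>
    h p (Nat.prime_of_mem_primeFactorsList hp) (Nat.dvd_of_mem_primeFactorsList hp))
  rw [Nat.prod_primeFactorsList hM] at h1
  have h2 := h1.trans hME
  rw [← Real.rpow_natCast, ← Real.rpow_mul hN0.le] at h2
  have h3 := (Real.rpow_le_rpow_left_iff hN1).1 h2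
  rw [le_div_iff₀ hδ]
  linarith

theorem sq_lin (q : ℕ) (hq : q.Prime) (N H : ℕ) :
    ((((Icc 1 H).filter (fun j : ℕ => ((q ^ 2 : ℕ) : ℤ) ∣
      (X + C 1 : ℤ[X]).eval ((N + j : ℕ) : ℤ))).card : ℕ) : ℝ) ≤
        (1 : ℕ) * (H * (1 / (q : ℝ) ^ 2) + 1) := by
  have hq2 : 0 < q ^ 2 := pow_pos hq.pos 2
  have hcard : ((Icc 1 H).filter (fun j : ℕ => ((q ^ 2 : ℕ) : ℤ) ∣
      (X + C 1 : ℤ[X]).eval ((N + j : ℕ) : ℤ))).card ≤
      (Ioc ((N + 1) / q ^ 2) ((N + 1 + H) / q ^ 2)).card := by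
    refine card_le_card_of_injOn (fun j => (N + 1 + j) / q ^ 2) ?_ ?_
    · intro j hj
      rw [mem_coe, mem_filter, mem_Icc] at hj
      obtain ⟨⟨h1, h2⟩, h3⟩ := hj
      have h4 : q ^ 2 ∣ N + 1 + j := by
        have h5 : (X + C 1 : ℤ[X]).eval ((N + j : ℕ) : ℤ) = ((N + 1 + j : ℕ) : ℤ) := by
          simp only [eval_add, eval_X, eval_C]
          push_cast
          ring
        rw [h5] at h3
        exact_mod_cast h3
      rw [mem_coe, mem_Ioc]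
      obtain ⟨c, hc⟩ := h4
      have h6 : (N + 1 + j) / q ^ 2 = c := by
        rw [hc]
        exact Nat.mul_div_cancel_left c hq2
      constructor
      · simp only
        rw [h6, Nat.div_lt_iff_lt_mul hq2, mul_comm]
        omega
      · exact Nat.div_le_div_right (by omega)
    · intro j hj j' hj' he
      rw [mem_coe, mem_filter, mem_Icc] at hj hj'
      have h4 : ∀ i : ℕ, ((q ^ 2 : ℕ) : ℤ) ∣ (X + C 1 : ℤ[X]).eval ((N + i : ℕ) : ℤ) →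
          q ^ 2 ∣ N + 1 + i := by
        intro i h3
        have h5 : (X + C 1 : ℤ[X]).eval ((N + i : ℕ) : ℤ) = ((N + 1 + i : ℕ) : ℤ) := by
          simp only [eval_add, eval_X, eval_C]
          push_cast
          ring
        rw [h5] at h3
        exact_mod_cast h3
      have e1 := Nat.div_mul_cancel (h4 j hj.2)
      have e2 := Nat.div_mul_cancel (h4 j' hj'.2)
      simp only at he
      rw [he, e2] at e1
      omega
  rw [Nat.card_Ioc] at hcard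
  have hqr : (0 : ℝ) < (q : ℝ) ^ 2 := by exact_mod_cast hq2
  have h1 : (((N + 1 + H) / q ^ 2 : ℕ) : ℝ) ≤ ((N : ℝ) + 1 + H) / (q : ℝ) ^ 2 := by
    have := @Nat.cast_div_le ℝ _ _ _ (N + 1 + H) (q ^ 2)
    push_cast at this
    exact this
  have h2 : ((N : ℝ) + 1) / (q : ℝ) ^ 2 < (((N + 1) / q ^ 2 : ℕ) : ℝ) + 1 := by
    rw [div_lt_iff₀ hqr]
    have h3 : N + 1 < q ^ 2 * ((N + 1) / q ^ 2 + 1) := Nat.lt_mul_div_succ (N + 1) hq2
    have h4 : ((N : ℝ) + 1) < (q : ℝ) ^ 2 * ((((N + 1) / q ^ 2 : ℕ) : ℝ) + 1) := by exact_mod_cast h3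
    linarith
  have h3 : (N + 1) / q ^ 2 ≤ (N + 1 + H) / q ^ 2 := Nat.div_le_div_right (by omega)
  have h4 : ((((Icc 1 H).filter (fun j : ℕ => ((q ^ 2 : ℕ) : ℤ) ∣
      (X + C 1 : ℤ[X]).eval ((N + j : ℕ) : ℤ))).card : ℕ) : ℝ) ≤
      (((N + 1 + H) / q ^ 2 : ℕ) : ℝ) - (((N + 1) / q ^ 2 : ℕ) : ℝ) := by
    rw [← Nat.cast_sub h3]
    exact_mod_cast hcard
  refine h4.trans ?_
  have h5 : ((N : ℝ) + 1 + H) / (q : ℝ) ^ 2 = ((N : ℝ) + 1) / (q : ℝ) ^ 2 + H * (1 / (q : ℝ) ^ 2) := by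
    ring
  push_cast
  linarith

/-- **Clusters of almost primes in very short intervals, together with further polynomials.** -/
theorem lin_sys (g : ℤ[X]) (hg : g ≠ 0)
    (hadm : ∀ p : ℕ, p.Prime → ∃ n : ℤ, ¬ (p : ℤ) ∣ n * g.eval n)
    (r0 : ℕ) (τ θ : ℝ) (hτ0 : 0 < τ) (hτθ : τ < θ)
    (hθ : θ ≤ 1) (hr0 : 101 / 96 ≤ ((r0 : ℝ) - 1 / 8) * τ) (m : ℕ) :
    ∃ K : ℕ, ∀ S : Finset ℕ, K ≤ S.card → ∃ (r : ℕ) (δ : ℝ), 0 < δ ∧ ∀ l : ℕ,
      ∃ B : ℕ, ∀ᶠ N : ℕ in atTop, ∃ H ⊆ S, H.card = m ∧ ∃ n d : ℕ, 1 ≤ d ∧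
        (d : ℝ) ≤ Real.log N ^ B ∧ ∀ j < l, N < n + j * d ∧ ∀ h ∈ H,
          ((n + j * d + h : ℕ) : ℝ) ≤ N + (N : ℝ) ^ θ ∧
          (n + j * d + h).primeFactorsList.length ≤ r0 ∧
          (∀ p : ℕ, p.Prime → p ∣ n + j * d + h → (N : ℝ) ^ (τ / 4) ≤ p) ∧
          (g.eval ((n + j * d + h : ℕ) : ℤ)).natAbs.primeFactorsList.length ≤ r ∧
          ∀ p : ℕ, p.Prime → (p : ℤ) ∣ g.eval ((n + j * d + h : ℕ) : ℤ) → (N : ℝ) ^ δ ≤ p := by
  classical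
  obtain ⟨f, hf⟩ : ∃ f : ℤ[X], f = X + C 1 := ⟨_, rfl⟩
  have hfm : f.Monic := by rw [hf]; exact monic_X_add_C 1
  have hfd : f.natDegree = 1 := by rw [hf]; exact natDegree_X_add_C 1
  have hirr : Irreducible f := by
    apply hfm.irreducible_of_degree_eq_one
    rw [degree_eq_natDegree hfm.ne_zero, hfd]
    rfl
  have hfe : ∀ n : ℤ, f.eval n = n + 1 := fun n => by
    rw [hf]
    simp only [eval_add, eval_X, eval_C]
  obtain ⟨P, hPdef⟩ : ∃ P : ℤ[X], P = (X * g).comp f := ⟨_, rfl⟩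
  have hPe : ∀ n : ℤ, P.eval n = (n + 1) * g.eval (n + 1) := fun n => by
    rw [hPdef, eval_comp, eval_mul, eval_X, hfe]
  have hP0 : P ≠ 0 := by
    rw [hPdef]
    intro h
    have h1 : (X * g : ℤ[X]).comp f = 0 := h
    rw [comp_eq_zero_iff] at h1
    rcases h1 with h1 | ⟨-, h1⟩
    · exact mul_ne_zero X_ne_zero hg h1
    · have h2 : f.natDegree = 0 := by rw [h1]; exact natDegree_C _
      omega
  have hPd : ∀ p : ℕ, p.Prime → ∃ n : ℤ, ¬ (p : ℤ) ∣ P.eval n := by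
    intro p hp
    obtain ⟨n, hn⟩ := hadm p hp
    refine ⟨n - 1, ?_⟩
    rw [hPe, sub_add_cancel]
    exact hn
  have hfP : ∀ p : ℕ, p.Prime → ∀ n : ℤ, (p : ℤ) ∣ f.eval n → (p : ℤ) ∣ P.eval n := by
    intro p _ n hn
    rw [hPe]
    rw [hfe] at hn
    exact hn.mul_right _
  have hGd : ∀ p : ℕ, p.Prime → ∃ n : ℤ, ¬ (p : ℤ) ∣ f.eval n := by
    intro p hp
    obtain ⟨n, hn⟩ := hPd p hp
    exact ⟨n, fun h => hn (hfP p hp n h)⟩
  obtain ⟨g₀, hg₀⟩ := Pool.Agent.Y677.RSZ.poly_all P hP0 hPd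
  obtain ⟨g₁, hg₁⟩ := Pool.Agent.Y677.RSZ.poly_all f hfm.ne_zero hGd
  obtain ⟨θ', hθ'⟩ : ∃ θ' : ℝ, θ' = (τ + θ) / 2 := ⟨_, rfl⟩
  have hτθ' : τ < θ' := by rw [hθ']; linarith
  have hθ'θ : θ' < θ := by rw [hθ']; linarith
  have hr1 : 1 / (8 / 9 : ℝ) + (((1 : ℕ) : ℝ) + 1 / 100) / (24 / 25 * τ) ≤ r0 + 1 := by
    have h1 : (((1 : ℕ) : ℝ) + 1 / 100) / (24 / 25 * τ) = (101 / 96) / τ := by
      push_cast
      field_simp
      norm_num
    have h2 : (101 / 96 : ℝ) / τ ≤ (r0 : ℝ) - 1 / 8 := by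
      rw [div_le_iff₀ hτ0]
      exact hr0
    rw [h1]
    linarith
  obtain ⟨K, hK⟩ := fin4 P hP0 (g₀ + g₁ + 1) (by omega)
    (Pool.Agent.Y677.RSZ.Sys.mono hg₀ (by omega))
    (fun n => f.eval n) (Pool.Agent.Y677.RSZ.Sys.mono hg₁ (by omega)) hfP 1 1
    (fun n => ⟨by simp only [hfe]; omega, by simp only [hfe, pow_one]; omega⟩)
    (fun ε₁ υ η hε hυ hη => Pool.Agent.K3h21.IR.mer_irr f hirr (by omega) ε₁ υ η hε hυ hη)
    1 0 (fun q hq _ N H => by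
      simp only [hf]
      exact sq_lin q hq N H) r0 τ θ' hτ0 hτθ' (by linarith) hr1 m
  obtain ⟨Kf, D, hKD⟩ := Pool.Agent.W123.RU.Poly.eval_bound g
  obtain ⟨n₀, hn₀⟩ := Pool.Agent.Y677.RSZ.ne_zero_ev g hg
  refine ⟨K, fun S hS => ?_⟩
  obtain ⟨δ, hδ, hl⟩ := hK S hS
  obtain ⟨r, hr⟩ := exists_nat_ge ((2 * D + 1 : ℝ) / δ)
  refine ⟨r, δ, hδ, fun l => ?_⟩
  obtain ⟨B, hB⟩ := hl (l + 2) (by omega)
  refine ⟨B, ?_⟩
  have ev1 : ∀ᶠ N : ℕ in atTop, ((S.sup id + 2 : ℕ) : ℝ) ≤ (N : ℝ) ^ (θ - θ') :=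
    ((tendsto_rpow_atTop (by linarith)).comp tendsto_natCast_atTop_atTop).eventually_ge_atTop _
  filter_upwards [hB, eventually_ge_atTop (Kf + n₀ + 7 + S.sup id), ev1] with N hN hNK hN1
  obtain ⟨H, hH, hHc, n, d, h1, h2, h3, h4, h5⟩ := hN
  have hNr : (7 : ℝ) ≤ N := by
    have : 7 ≤ N := by omega
    exact_mod_cast this
  have hN0 : (0 : ℝ) < N := by linarith
  have hKr : (Kf : ℝ) ≤ N := by
    have : Kf ≤ N := by omega
    exact_mod_cast this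
  have hsplit : (N : ℝ) ^ θ = (N : ℝ) ^ θ' * (N : ℝ) ^ (θ - θ') := by
    rw [← Real.rpow_add hN0]
    congr 1
    ring
  have hNθ1 : 1 ≤ (N : ℝ) ^ θ' := Real.one_le_rpow (by linarith) (by linarith)
  have hin : ∀ j < l, ((n + j * d : ℕ) : ℝ) ≤ N + (N : ℝ) ^ θ' := by
    intro j hj
    refine le_trans ?_ h2
    have : n + j * d ≤ n + (l + 2 - 1) * d := by
      have := Nat.mul_le_mul_right d (show j ≤ l + 2 - 1 by omega)
      omega
    exact_mod_cast this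
  refine ⟨H, hH, hHc, n + 1, d, h3, h4, fun j hj => ⟨by omega, fun h hh => ?_⟩⟩
  obtain ⟨h6, h7, h8⟩ := h5 j (by omega) h hh
  have ecast : ((n + j * d + h : ℕ) : ℤ) + 1 = ((n + 1 + j * d + h : ℕ) : ℤ) := by
    push_cast
    ring
  simp only [hfe, ecast] at h6 h7
  simp only [hPe, ecast] at h8
  have hhS : h ≤ S.sup id := Finset.le_sup (f := id) (hH hh)
  have hfit : ((n + 1 + j * d + h : ℕ) : ℝ) ≤ N + (N : ℝ) ^ θ := by
    have e1 := hin j hj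
    have e2 : ((h : ℕ) : ℝ) ≤ (S.sup id : ℕ) := by exact_mod_cast hhS
    push_cast at e1 e2 hN1 ⊢
    rw [hsplit]
    nlinarith
  have h9 : ∀ p : ℕ, p.Prime → (p : ℤ) ∣ g.eval ((n + 1 + j * d + h : ℕ) : ℤ) → (N : ℝ) ^ δ ≤ p :=
    fun p hp hpd => h8 p hp (hpd.mul_left _)
  refine ⟨hfit, ?_, fun p hp hpd => h7 p hp (by exact_mod_cast hpd), ?_, h9⟩
  · rw [Int.natAbs_natCast] at h6
    exact h6
  have h14 : (N : ℝ) ^ θ ≤ N := by
    calc (N : ℝ) ^ θ ≤ (N : ℝ) ^ (1 : ℝ) :=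
          Real.rpow_le_rpow_of_exponent_le (by linarith) hθ
      _ = N := Real.rpow_one _
  have h15 : ((n + 1 + j * d + h : ℕ) : ℝ) ≤ 2 * N := by linarith
  have h16 := hKD ((n + 1 + j * d + h : ℕ) : ℤ)
  have h17 : ((g.eval ((n + 1 + j * d + h : ℕ) : ℤ)).natAbs : ℝ) =
      |((g.eval ((n + 1 + j * d + h : ℕ) : ℤ) : ℤ) : ℝ)| := by
    rw [← Int.cast_abs, Int.abs_eq_natAbs]
    simp
  have h18 : ((g.eval ((n + 1 + j * d + h : ℕ) : ℤ)).natAbs : ℝ) ≤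
      (N : ℝ) ^ ((2 * D + 1 : ℕ) : ℝ) := by
    rw [h17]
    refine h16.trans ?_
    rw [Real.rpow_natCast, pow_succ, pow_mul, mul_comm]
    have h19 : 1 + |(((n + 1 + j * d + h : ℕ) : ℤ) : ℝ)| ≤ (N : ℝ) ^ 2 := by
      rw [Int.cast_natCast, abs_of_nonneg (Nat.cast_nonneg _)]
      nlinarith
    have h20 : (0 : ℝ) ≤ 1 + |(((n + 1 + j * d + h : ℕ) : ℤ) : ℝ)| := by positivity
    gcongr
  have h21 := omega_le N (g.eval ((n + 1 + j * d + h : ℕ) : ℤ)).natAbs δ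
    ((2 * D + 1 : ℕ) : ℝ) (by omega) hδ (by
      rw [Int.natAbs_ne_zero]
      exact hn₀ _ (by omega)) (fun p hp hpd => h9 p hp (Int.natCast_dvd.2 hpd)) h18
  have h22 : ((2 * D + 1 : ℕ) : ℝ) / δ ≤ r := by
    push_cast
    exact hr
  exact_mod_cast h21.trans h22

end Pool.Agent.K3h33.CL
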