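import Pool.Agent.K3h33.CL.CoreU
import Pool.Agent.K3h33.CL.Lin

/-! Clusters of almost primes `2 k p + 1` with small multipliers `k`. -/

set_option autoImplicit false

namespace Pool.Agent.K3h33.CL

open Finset Filter Polynomial
open Pool.Agent.Y677.RSZ (rt Sys rhoT per_mod ev_log V)
open Pool.Agent.TH423.SH (PS)
open Pool.Agent.W23.DC
open Pool.Agent.Y882
open Pool.Agent.Y882.PX
open Pool.Agent.Y882.KW
open Pool.Agent.R498.MT
open Pool.Agent.K3h21.IR (many2)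

/-- the numbers which are `1` modulo `a` -/
def GA (a : ℕ) (n : ℤ) : ℤ := a * n + 1

theorem GA_not_dvd (a q : ℕ) (hq : q.Prime) (h : q ∣ a) (n : ℤ) : ¬ (q : ℤ) ∣ GA a n := by
  intro hd
  unfold GA at hd
  have h1 : (q : ℤ) ∣ a * n := (Int.natCast_dvd_natCast.2 h).mul_right _
  have h2 : (q : ℤ) ∣ 1 := (dvd_add_right h1).1 hd
  exact hq.one_lt.ne' (Nat.dvd_one.1 (by exact_mod_cast h2))

theorem GA_diff (a q : ℕ) (hq : q.Prime) (x y : ℤ) (hx : (q : ℤ) ∣ GA a x) (hy : (q : ℤ) ∣ GA a y) :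
    (q : ℤ) ∣ x - y := by
  have h1 : (q : ℤ) ∣ a * (x - y) := by
    have h2 := dvd_sub hx hy
    have e : GA a x - GA a y = a * (x - y) := by
      unfold GA
      ring
    rwa [e] at h2
  rcases (Nat.prime_iff_prime_int.1 hq).dvd_or_dvd h1 with h2 | h2
  · exact absurd hx (GA_not_dvd a q hq (Int.natCast_dvd_natCast.1 h2) x)
  · exact h2

theorem GA_diff2 (a q : ℕ) (hq : q.Prime) (x y : ℤ) (hx : ((q ^ 2 : ℕ) : ℤ) ∣ GA a x)
    (hy : ((q ^ 2 : ℕ) : ℤ) ∣ GA a y) : ((q ^ 2 : ℕ) : ℤ) ∣ x - y := by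
  have h1 : ((q ^ 2 : ℕ) : ℤ) ∣ a * (x - y) := by
    have h2 := dvd_sub hx hy
    have e : GA a x - GA a y = a * (x - y) := by
      unfold GA
      ring
    rwa [e] at h2
  have hqx : (q : ℤ) ∣ GA a x := by
    refine dvd_trans ?_ hx
    push_cast
    exact dvd_pow_self _ (by norm_num)
  have hqa : ¬ q ∣ a := fun h => GA_not_dvd a q hq h x hqx
  have hcop : IsCoprime ((q ^ 2 : ℕ) : ℤ) (a : ℤ) := by
    rw [Nat.isCoprime_iff_coprime]
    exact Nat.Coprime.pow_left 2 ((Nat.Prime.coprime_iff_not_dvd hq).2 hqa)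
  exact hcop.dvd_of_dvd_mul_left h1

theorem rt_div (a q : ℕ) (hq : q.Prime) (h : q ∣ a) : rt (GA a) q = 0 := by
  unfold rt
  rw [card_eq_zero, filter_eq_empty_iff]
  intro r _
  exact GA_not_dvd a q hq h r

theorem rt_le (a q : ℕ) (hq : q.Prime) : rt (GA a) q ≤ 1 := by
  unfold rt
  rw [card_le_one]
  intro r hr r' hr'
  rw [mem_filter, mem_range] at hr hr'
  have h1 := GA_diff a q hq r r' hr.2 hr'.2
  have h2 : (r : ℤ) - r' = 0 := by
    apply Int.eq_zero_of_abs_lt_dvd h1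
    rw [abs_lt]
    constructor <;> omega
  omega

theorem rt_one (a q : ℕ) (hq : q.Prime) (h : ¬ q ∣ a) : rt (GA a) q = 1 := by
  apply le_antisymm (rt_le a q hq)
  unfold rt
  rw [Nat.one_le_iff_ne_zero, ← Nat.pos_iff_ne_zero, card_pos]
  have : Fact q.Prime := ⟨hq⟩
  have ha : (a : ZMod q) ≠ 0 := by rwa [Ne, ZMod.natCast_eq_zero_iff]
  refine ⟨(-(a : ZMod q)⁻¹).val, mem_filter.2 ⟨mem_range.2 (ZMod.val_lt _), ?_⟩⟩
  unfold GA
  rw [← ZMod.intCast_zmod_eq_zero_iff_dvd]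
  push_cast
  rw [ZMod.natCast_zmod_val, mul_neg, mul_inv_cancel₀ ha]
  ring

theorem sys_GA (a : ℕ) : Sys 1 (GA a) where
  per := fun q _ n => ⟨a, by unfold GA; ring⟩
  root := fun q hq => ⟨rt_le a q hq, (rt_le a q hq).trans_lt hq.one_lt⟩
  coll := ⟨fun h => h, fun h hh => ⟨hh, by rw [pow_one], fun q hq n h1 h2 => by
    have h3 := GA_diff a q hq (n + h) n h2 h1
    rw [add_sub_cancel_left] at h3
    exact_mod_cast h3⟩⟩

theorem mer_GA (ε₁ υ η : ℝ) (hε : 0 < ε₁) (hυ : υ ≤ 1) (hη : 0 < η) :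
    ∃ Y0 : ℕ, ∀ Y : ℕ, Y0 ≤ Y → ∀ i : {p : ℕ // p.Prime},
      Mer (pr Y ε₁ υ) (tt Y) (fun q => (rt (GA (2 * i)) q : ℝ) / q) ε₁ υ η := by
  classical
  obtain ⟨f, hf⟩ : ∃ f : ℤ[X], f = X + C 1 := ⟨_, rfl⟩
  have hfm : f.Monic := by rw [hf]; exact monic_X_add_C 1
  have hfd : f.natDegree = 1 := by rw [hf]; exact natDegree_X_add_C 1
  have hirr : Irreducible f := by
    apply hfm.irreducible_of_degree_eq_one
    rw [degree_eq_natDegree hfm.ne_zero, hfd]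
    rfl
  obtain ⟨Y1, hY1⟩ := Pool.Agent.K3h21.IR.mer_irr f hirr (by omega) ε₁ υ (η / 2) hε hυ (by linarith)
  have ev1 : ∀ᶠ Y : ℕ in atTop, 4 / η ≤ (Y : ℝ) ^ ε₁ :=
    ((tendsto_rpow_atTop hε).comp tendsto_natCast_atTop_atTop).eventually_ge_atTop _
  obtain ⟨Y2, hY2⟩ := eventually_atTop.1 (ev1.and (eventually_ge_atTop 3))
  refine ⟨max Y1 Y2, fun Y hY i => ?_⟩
  obtain ⟨p, hp⟩ := i
  obtain ⟨e1, e2⟩ := hY2 Y ((le_max_right _ _).trans hY)
  have h1 := hY1 Y ((le_max_left _ _).trans hY)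
  intro a b ha hab hb
  have h2 := h1 a b ha hab hb
  set T := (pr Y ε₁ υ).filter (fun q => a ≤ tt Y q ∧ tt Y q < b) with hT
  have hTm : ∀ q ∈ T, q.Prime ∧ (Y : ℝ) ^ ε₁ ≤ q := fun q hq => by
    have h3 := pr_mem Y q ε₁ υ (by omega) (mem_filter.1 hq).1
    exact ⟨h3.1, h3.2.1⟩
  have h4 : ∑ q ∈ T, (Pool.Agent.H474R2.PG.rho f q : ℝ) / q = ∑ q ∈ T, (1 : ℝ) / q := by
    refine sum_congr rfl fun q hq => ?_
    have h5 : Pool.Agent.H474R2.PG.rho f q = rt (GA 1) q := by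
      change rt (fun n => f.eval n) q = rt (GA 1) q
      congr 1
      funext n
      unfold GA
      rw [hf]
      simp only [eval_add, eval_X, eval_C]
      push_cast
      ring
    rw [h5, rt_one 1 q (hTm q hq).1 (fun h => (hTm q hq).1.one_lt.ne' (Nat.dvd_one.1 h))]
    norm_num
  rw [h4] at h2
  have hY0 : (0 : ℝ) < (Y : ℝ) ^ ε₁ := by
    have : (0 : ℝ) < Y := by
      have : 0 < Y := by omega
      exact_mod_cast this
    positivity
  have h6 : ∑ q ∈ T, (1 : ℝ) / q - ∑ q ∈ T, (rt (GA (2 * p)) q : ℝ) / q =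
      ∑ q ∈ T.filter (fun q => q ∣ 2 * p), (1 : ℝ) / q := by
    rw [← sum_sub_distrib, sum_filter (p := fun q => q ∣ 2 * p)]
    refine sum_congr rfl fun q hq => ?_
    split_ifs with h7
    · rw [rt_div (2 * p) q (hTm q hq).1 h7]
      simp
    · rw [rt_one (2 * p) q (hTm q hq).1 h7]
      simp
  have h7 : ∑ q ∈ T.filter (fun q => q ∣ 2 * p), (1 : ℝ) / q ≤ 2 * (1 / (Y : ℝ) ^ ε₁) := by
    have h8 : (T.filter (fun q => q ∣ 2 * p)).card ≤ 2 := by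
      refine (card_le_card (t := {2, p}) ?_).trans card_le_two
      intro q hq
      rw [mem_filter] at hq
      rw [mem_insert, mem_singleton]
      have h9 := (hTm q hq.1).1
      rcases h9.dvd_mul.1 hq.2 with h10 | h10
      · left
        exact (Nat.prime_dvd_prime_iff_eq h9 Nat.prime_two).1 h10
      · right
        exact (Nat.prime_dvd_prime_iff_eq h9 hp).1 h10
    calc ∑ q ∈ T.filter (fun q => q ∣ 2 * p), (1 : ℝ) / q ≤
        ∑ _q ∈ T.filter (fun q => q ∣ 2 * p), 1 / (Y : ℝ) ^ ε₁ := by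
          refine sum_le_sum fun q hq => ?_
          exact one_div_le_one_div_of_le hY0 (hTm q (mem_filter.1 hq).1).2
      _ = (T.filter (fun q => q ∣ 2 * p)).card * (1 / (Y : ℝ) ^ ε₁) := by
          rw [sum_const, nsmul_eq_mul]
      _ ≤ 2 * (1 / (Y : ℝ) ^ ε₁) := by
          apply mul_le_mul_of_nonneg_right _ (by positivity)
          exact_mod_cast h8
  have h8 : 0 ≤ ∑ q ∈ T.filter (fun q => q ∣ 2 * p), (1 : ℝ) / q := sum_nonneg fun q _ => by positivity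
  have h9 : 2 * (1 / (Y : ℝ) ^ ε₁) ≤ η / 2 := by
    rw [mul_one_div, div_le_iff₀ hY0]
    rw [div_le_iff₀ hη] at e1
    linarith
  rw [abs_le] at h2 ⊢
  constructor
  · simp only at *
    linarith [h2.1]
  · simp only at *
    linarith [h2.2]

/-- a set of numbers which are congruent modulo `Q` -/
theorem card_cong (Q H : ℕ) (hQ : 0 < Q) (A : Finset ℕ) (hA : A ⊆ Icc 1 H)
    (h : ∀ x ∈ A, ∀ y ∈ A, (Q : ℤ) ∣ (x : ℤ) - y) : (A.card : ℝ) ≤ H * (1 / (Q : ℝ)) + 1 := by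
  have hQr : (0 : ℝ) < Q := by exact_mod_cast hQ
  rcases A.eq_empty_or_nonempty with rfl | hne
  · simp only [card_empty, Nat.cast_zero]
    positivity
  obtain ⟨x₀, hx₀, hmin⟩ := exists_min_image A id hne
  have h1 : A.card ≤ (range (H / Q + 1)).card := by
    refine card_le_card_of_injOn (fun x => (x - x₀) / Q) ?_ ?_
    · intro x hx
      rw [mem_coe] at hx
      rw [mem_coe, mem_range]
      have h2 := mem_Icc.1 (hA hx)
      have h3 : (x - x₀) / Q ≤ H / Q := Nat.div_le_div_right (by omega)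
      simp only
      omega
    · intro x hx y hy hxy
      rw [mem_coe] at hx hy
      have k : ∀ z ∈ A, Q ∣ z - x₀ := by
        intro z hz
        have h4 := h z hz x₀ hx₀
        have h5 : x₀ ≤ z := hmin z hz
        have h6 : ((z - x₀ : ℕ) : ℤ) = (z : ℤ) - x₀ := by omega
        rw [← h6] at h4
        exact_mod_cast h4
      have e1 := Nat.div_mul_cancel (k x hx)
      have e2 := Nat.div_mul_cancel (k y hy)
      simp only at hxy
      rw [hxy, e2] at e1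
      have h5 : x₀ ≤ x := hmin x hx
      have h6 : x₀ ≤ y := hmin y hy
      omega
  rw [card_range] at h1
  have h2 : ((H / Q : ℕ) : ℝ) ≤ (H : ℝ) / Q := Nat.cast_div_le
  calc (A.card : ℝ) ≤ ((H / Q + 1 : ℕ) : ℝ) := by exact_mod_cast h1
    _ ≤ H * (1 / (Q : ℝ)) + 1 := by
        push_cast
        rw [mul_one_div]
        linarith

theorem sq_GA (a q : ℕ) (hq : q.Prime) (N H : ℕ) :
    ((((Icc 1 H).filter (fun j : ℕ => ((q ^ 2 : ℕ) : ℤ) ∣ GA a ((N + j : ℕ) : ℤ))).card : ℕ) : ℝ) ≤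
        (1 : ℕ) * (H * (1 / (q : ℝ) ^ 2) + 1) := by
  classical
  have h1 := card_cong (q ^ 2) H (pow_pos hq.pos 2)
    ((Icc 1 H).filter (fun j : ℕ => ((q ^ 2 : ℕ) : ℤ) ∣ GA a ((N + j : ℕ) : ℤ))) (filter_subset _ _)
    (by
      intro x hx y hy
      rw [mem_filter] at hx hy
      have h2 := GA_diff2 a q hq _ _ hx.2 hy.2
      have e : ((N + x : ℕ) : ℤ) - ((N + y : ℕ) : ℤ) = (x : ℤ) - y := by
        push_cast
        ring
      rwa [e] at h2)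
  push_cast at h1 ⊢
  linarith

/-- **Clusters of almost primes `2 k p + 1`.** -/
theorem mult (r0 : ℕ) (τ θ : ℝ) (hτ0 : 0 < τ) (hτθ : τ < θ) (hθ : θ ≤ 1)
    (hr0 : 67 / 32 ≤ ((r0 : ℝ) - 1 / 8) * τ) (m : ℕ) :
    ∃ K : ℕ, ∀ S : Finset ℕ, K ≤ S.card → ∀ᶠ p : ℕ in atTop, p.Prime → ∀ M : ℕ,
      (M : ℝ) + (p : ℝ) ^ θ ≤ 2 * p → ∃ H ⊆ S, H.card = m ∧ ∃ n : ℕ, ∀ h ∈ H, M < n + h ∧
        ((n + h : ℕ) : ℝ) ≤ M + (p : ℝ) ^ θ ∧ (2 * (n + h) * p + 1).primeFactorsList.length ≤ r0 ∧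
        ∀ q : ℕ, q.Prime → q ∣ 2 * (n + h) * p + 1 → (p : ℝ) ^ (τ / 4) ≤ q := by
  classical
  set υ : ℝ := 24 / 25 * τ with hυ
  have hυ0 : 0 < υ := by rw [hυ]; positivity
  have hcond : ∫ x in (τ / 4)..υ, ((8 / 9 : ℝ) - (8 / 9) / υ * x) / (τ - x) / x <
      Real.log (τ / (τ / 4) - 1) / τ := cond_A τ (8 / 9) hτ0 (by norm_num) (by norm_num)
  obtain ⟨θ1, hθ1⟩ : ∃ θ1 : ℝ, θ1 = (τ + θ) / 2 := ⟨_, rfl⟩
  obtain ⟨R, hR0, hR1, hR2⟩ : ∃ R : ℝ, 0 < R ∧ R < τ / 4 ∧ 2 * R + τ < θ1 := by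
    refine ⟨min (τ / 8) ((θ - τ) / 8), lt_min (by linarith) (by linarith), ?_, ?_⟩
    · exact (min_le_left _ _).trans_lt (by linarith)
    · have := min_le_right (τ / 8) ((θ - τ) / 8)
      rw [hθ1]
      linarith
  obtain ⟨k, W, hW0, hWsq, hWp, hgW, ε₁, c, hε, hεζ, hc, hcore⟩ :=
    core_u (ι := {p : ℕ // p.Prime}) (fun i => GA (2 * i)) (fun i => GA (2 * i)) 1
      (fun i => sys_GA _) (fun i => sys_GA _) (fun i p _ n h => h) 2
      mer_GA m τ (τ / 4) υ (8 / 9)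
      ((8 / 9) / υ) θ1 R (by linarith) (by linarith) (by linarith) (by linarith) (by rw [hυ]; linarith)
      (by rw [hυ]; linarith) (by norm_num) (by positivity)
      (by rw [div_mul_cancel₀ _ hυ0.ne']) hcond hR0 hR1 hR2
  have hW2 : 2 ≤ W := by
    have h1 : 2 ∣ W := hWp 2 Nat.prime_two (by
      have : 1 ≤ 1 * 2 ^ k := Nat.mul_pos (by norm_num) (by positivity)
      omega)
    exact Nat.le_of_dvd hW0 h1
  refine ⟨W * 2 ^ k, ?_⟩
  intro HH hHH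
  obtain ⟨r, t, hrW, ht, hmem⟩ := shifts W (2 ^ k) hW0 HH hHH
  obtain ⟨Y₀, hcore⟩ := hcore t ht 0
  have hW0r : (0 : ℝ) < W := by exact_mod_cast hW0
  obtain ⟨NT, hNT⟩ : ∃ NT : ℕ, ∀ i, t i ≤ NT :=
    ⟨univ.sup t, fun i => Finset.le_sup (f := t) (mem_univ i)⟩
  have hT := tendsto_natCast_atTop_atTop (R := ℝ)
  have hT2 : Tendsto (fun p : ℕ => ((2 * p : ℕ) : ℝ)) atTop atTop := by
    refine tendsto_natCast_atTop_atTop.comp (tendsto_atTop_mono (fun p => ?_) tendsto_id)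
    simp only [id]
    omega
  have v1 : ∀ᶠ p : ℕ in atTop, (((0 : ℕ) : ℝ)) + 2 ≤ (((2 * p : ℕ) : ℝ)) ^ (τ / 4) :=
    ((tendsto_rpow_atTop (by linarith)).comp hT2).eventually_ge_atTop _
  have v2 : ∀ᶠ p : ℕ in atTop, (2 : ℝ) ≤ (((2 * p : ℕ) : ℝ)) ^ ((1 : ℝ) / 100) :=
    ((tendsto_rpow_atTop (by norm_num)).comp hT2).eventually_ge_atTop _
  have hT2n : Tendsto (fun p : ℕ => 2 * p) atTop atTop :=
    tendsto_atTop_mono (fun p => by simp only [id]; omega) tendsto_id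
  have v3 : ∀ᶠ p : ℕ in atTop, 8 * (2 ^ k * ((1 : ℕ) : ℝ) * W) / c *
      Real.log ((2 * p : ℕ) : ℝ) ^ (2 * (1 * 2 ^ k) + 1) ≤ ((2 * p : ℕ) : ℝ) ^ (τ / 4) :=
    hT2n.eventually (ev_log (2 * (1 * 2 ^ k) + 1) (8 * (2 ^ k * ((1 : ℕ) : ℝ) * W) / c) (τ / 4) (by linarith))
  have v4 : ∀ᶠ p : ℕ in atTop, 4 * (2 ^ k * ((1 : ℕ) : ℝ)) / c *
      Real.log ((2 * p : ℕ) : ℝ) ^ (2 * (1 * 2 ^ k) + 1) ≤ ((2 * p : ℕ) : ℝ) ^ (θ1 - υ) :=
    hT2n.eventually (ev_log (2 * (1 * 2 ^ k) + 1) (4 * (2 ^ k * ((1 : ℕ) : ℝ)) / c) (θ1 - υ)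
      (by rw [hυ, hθ1]; linarith))
  have v5 : ∀ᶠ p : ℕ in atTop, ((W * 4 + W * NT + W + 1 : ℕ) : ℝ) ≤ (p : ℝ) ^ (θ - θ1) :=
    ((tendsto_rpow_atTop (by rw [hθ1]; linarith)).comp hT).eventually_ge_atTop _
  filter_upwards [v1, v2, v3, v4, v5, eventually_ge_atTop (Y₀ + W + W * NT + 3)] with
    p w1 w2 w3 w4 w5 w6 hp M hM
  have hpr : (3 : ℝ) ≤ p := by
    have : 3 ≤ p := by omega
    exact_mod_cast this
  have hp0 : (0 : ℝ) < p := by linarith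
  have hp1 : (1 : ℝ) ≤ p := by linarith
  obtain ⟨Y, hY⟩ : ∃ Y : ℕ, Y = 2 * p := ⟨_, rfl⟩
  rw [← hY] at w1 w2 w3 w4
  have hYr : (Y : ℝ) = 2 * p := by rw [hY]; push_cast; rfl
  have hY0 : (0 : ℝ) < Y := by rw [hYr]; linarith
  have hY1 : (1 : ℝ) ≤ Y := by rw [hYr]; linarith
  -- the length
  set Q : ℕ := ⌊(p : ℝ) ^ θ⌋₊ with hQ
  have hQ1 : (p : ℝ) ^ θ - 1 < Q := by
    have := Nat.lt_floor_add_one ((p : ℝ) ^ θ)
    linarith
  have hQ2 : (Q : ℝ) ≤ (p : ℝ) ^ θ := Nat.floor_le (by positivity)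
  have hθ10 : 0 < θ1 := by rw [hθ1]; linarith
  have hθ11 : θ1 < 1 := by rw [hθ1]; linarith
  have hsplit : (p : ℝ) ^ θ = (p : ℝ) ^ θ1 * (p : ℝ) ^ (θ - θ1) := by
    rw [← Real.rpow_add hp0]
    congr 1
    ring
  have hT1 : (1 : ℝ) ≤ (p : ℝ) ^ θ1 := Real.one_le_rpow hp1 hθ10.le
  have hYθ : (Y : ℝ) ^ θ1 ≤ 2 * (p : ℝ) ^ θ1 := by
    rw [hYr, Real.mul_rpow (by norm_num) hp0.le]
    apply mul_le_mul_of_nonneg_right _ (by positivity)
    calc (2 : ℝ) ^ θ1 ≤ 2 ^ (1 : ℝ) := Real.rpow_le_rpow_of_exponent_le (by norm_num) hθ11.le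
      _ = 2 := by norm_num
  have hQ3 : ((W * 4 + W * NT + W + 1 : ℕ) : ℝ) * (p : ℝ) ^ θ1 ≤ (p : ℝ) ^ θ := by
    rw [hsplit, mul_comm]
    exact mul_le_mul_of_nonneg_left w5 (by positivity)
  obtain ⟨L, hL⟩ : ∃ L : ℕ, L = (Q - W * NT - W) / W := ⟨_, rfl⟩
  have hQW : W * NT + W + 1 ≤ Q := by
    have h1 : ((W * NT + W + 1 : ℕ) : ℝ) < Q + 1 := by
      push_cast at hQ3 ⊢
      have h2 : (0 : ℝ) ≤ NT := Nat.cast_nonneg _
      nlinarith
    have h2 : W * NT + W + 1 < Q + 1 := by exact_mod_cast h1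
    omega
  have hLW : W * L ≤ Q - W * NT - W := by rw [hL]; exact Nat.mul_div_le _ _
  have hLW2 : Q - W * NT - W < W * (L + 1) := by
    rw [hL]
    exact Nat.lt_mul_div_succ _ hW0
  have hLθ : (Y : ℝ) ^ θ1 ≤ L := by
    have h1 : Q < W * (L + 1) + W * NT + W := by omega
    have h2 : (Q : ℝ) < W * (L + 1) + W * NT + W := by exact_mod_cast h1
    push_cast at hQ3
    have h3 : (W : ℝ) * (2 * (p : ℝ) ^ θ1) ≤ W * L := by
      have h4 : (0 : ℝ) ≤ NT := Nat.cast_nonneg _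
      have h5 : (2 : ℝ) ≤ W := by exact_mod_cast hW2
      nlinarith [mul_nonneg hW0r.le h4, mul_le_mul_of_nonneg_left hT1 (mul_nonneg hW0r.le h4),
        mul_le_mul_of_nonneg_left hT1 hW0r.le]
    have h4 := le_of_mul_le_mul_left h3 hW0r
    linarith
  obtain ⟨M', hM'⟩ : ∃ M' : ℕ, M' = (M + r) / W := ⟨_, rfl⟩
  have hM1 : M + r < W * (M' + 1) := by
    rw [hM']
    exact Nat.lt_mul_div_succ (M + r) hW0
  have hM2 : W * M' ≤ M + r := by rw [hM']; exact Nat.mul_div_le _ _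
  have hMQ : M + Q ≤ Y := by
    have h1 : ((M + Q : ℕ) : ℝ) ≤ Y := by
      push_cast
      rw [hYr]
      linarith
    exact_mod_cast h1
  have hMLY : M' + L ≤ Y := by
    have h1 : W * (M' + L) ≤ M + r + (Q - W * NT - W) := by
      rw [mul_add]
      omega
    have h2 : M' + L ≤ W * (M' + L) := Nat.le_mul_of_pos_left _ hW0
    omega
  obtain ⟨z, hz⟩ : ∃ z : ℕ, z + 1 = ⌈(Y : ℝ) ^ ε₁⌉₊ := by
    have : 1 ≤ ⌈(Y : ℝ) ^ ε₁⌉₊ := Nat.ceil_pos.2 (by positivity)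
    exact ⟨⌈(Y : ℝ) ^ ε₁⌉₊ - 1, by omega⟩
  have hz1 : (z : ℝ) < (Y : ℝ) ^ ε₁ := by
    have h1 := Nat.ceil_lt_add_one (show 0 ≤ (Y : ℝ) ^ ε₁ by positivity)
    rw [← hz] at h1
    push_cast at h1
    linarith
  have hz2 : (Y : ℝ) ^ ε₁ ≤ z + 1 := by
    have h1 := Nat.le_ceil ((Y : ℝ) ^ ε₁)
    rw [← hz] at h1
    push_cast at h1
    exact h1
  have hGA0 : ∀ n : ℕ, GA (2 * p) (n : ℤ) = ((2 * n * p + 1 : ℕ) : ℤ) := by
    intro n
    unfold GA
    push_cast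
    ring
  obtain ⟨hgd, hV0, hV1⟩ := hcore Y (by omega) ⟨p, hp⟩
    (by
      intro n hn
      simp only
      rw [hGA0]
      refine ⟨by exact_mod_cast (Nat.succ_ne_zero (2 * n * p)), ?_⟩
      have e : 2 * n * p + 1 = n * Y + 1 := by rw [hY]; ring
      rw [Int.natAbs_natCast, e]
      have h1 : n * Y + 1 ≤ (Y ^ 2) * (Y ^ 2) := by
        have h2 : 1 ≤ Y := by omega
        have h3 : Y ≤ Y ^ 2 := Nat.le_self_pow (by norm_num) Y
        have h4 : n * Y + 2 * Y ≤ Y ^ 2 * Y := by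
          have := Nat.mul_le_mul_right Y hn
          nlinarith
        have h5 : Y ^ 2 * Y ≤ Y ^ 2 * Y ^ 2 := Nat.mul_le_mul_left _ h3
        omega
      calc n * Y + 1 ≤ (Y ^ 2) * (Y ^ 2) := h1
        _ = (Y ^ 2) ^ 2 := by ring)
    (by
      intro q hq _ hd
      simp only [Nat.cast_zero] at hd
      unfold GA at hd
      rw [mul_zero, zero_add] at hd
      exact hq.one_lt.ne' (Nat.dvd_one.1 (by exact_mod_cast hd)))
    M' L z hLθ hMLY hz1 hz2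
  simp only at hgd hV0 hV1
  obtain ⟨Hs, A, hHs, hA1, hA2⟩ := many2 (GA (2 * p)) (GA (2 * p)) 1 0 W 0 r M' L Y k m
    (2 * (1 * 2 ^ k) + 1) ε₁ (τ / 4) υ (8 / 9) ((8 / 9) / υ) c
    (Vp (GA (2 * p)) W 0 z t) θ1 (fun q hq _ N H => sq_GA (2 * p) q hq N H) hW0 (by omega) w1 t hc hV0
    hV1 hgd hLθ w3 w4
  have hApos : 0 < A.card := by
    have h1 : (0 : ℝ) < c / (2 * 2 ^ 2 ^ k) * (L * Vp (GA (2 * p)) W 0 z t) := by
      have h2 : (0 : ℝ) < L := lt_of_lt_of_le (by positivity) hLθ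
      positivity
    have h2 := h1.trans_le hA1
    exact_mod_cast h2
  obtain ⟨K, hK⟩ := card_pos.1 hApos
  obtain ⟨hK1, -, hK3⟩ := hA2 K hK
  rw [mem_Ioc] at hK1
  have hWK : W * (M' + 1) ≤ W * K := Nat.mul_le_mul_left _ (by omega)
  have hWK2 : W * K ≤ W * (M' + L) := Nat.mul_le_mul_left _ hK1.2
  have hWK3 : W * (M' + L) = W * M' + W * L := by ring
  refine ⟨Hs.image (fun i => W * t i + r), ?_, ?_, W * K - r, ?_⟩
  · intro h hh
    rw [mem_image] at hh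
    obtain ⟨i, _, rfl⟩ := hh
    exact hmem i
  · rw [card_image_of_injective _ (fun i j hij => by
      have h1 : W * t i + r = W * t j + r := hij
      have h2 : W * t i = W * t j := by omega
      exact ht (Nat.eq_of_mul_eq_mul_left hW0 h2))]
    exact hHs
  · intro h hh
    rw [mem_image] at hh
    obtain ⟨i, hi, rfl⟩ := hh
    have e : W * K - r + (W * t i + r) = W * (K + t i) + 0 := by
      have h1 : W * (K + t i) = W * K + W * t i := by ring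
      omega
    have hti : W * t i ≤ W * NT := Nat.mul_le_mul_left _ (hNT i)
    have hup : W * K - r + (W * t i + r) ≤ M + Q := by omega
    have hlo : M < W * K - r + (W * t i + r) := by omega
    obtain ⟨hw, hsq⟩ := hK3 i hi
    rw [← e] at hw hsq
    obtain ⟨P, hP⟩ : ∃ P : ℕ, P = W * K - r + (W * t i + r) := ⟨_, rfl⟩
    rw [← hP] at hw hsq hup hlo ⊢
    rw [hGA0, Int.natAbs_natCast] at hw
    have hsize : ((2 * P * p + 1 : ℕ) : ℝ) ≤ (Y : ℝ) ^ ((2 : ℝ) + 1 / 100) := by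
      have h1 : 2 * P * p + 1 ≤ 2 * Y ^ 2 := by
        have h2 : P * Y ≤ Y * Y := Nat.mul_le_mul_right _ (by omega)
        have h3 : 2 * P * p = P * Y := by rw [hY]; ring
        have h4 : 1 ≤ Y * Y := Nat.mul_pos (by omega) (by omega)
        rw [sq]
        omega
      have h2 : ((2 * P * p + 1 : ℕ) : ℝ) ≤ 2 * (Y : ℝ) ^ 2 := by exact_mod_cast h1
      rw [Real.rpow_add hY0, Real.rpow_two]
      refine h2.trans ?_
      rw [mul_comm (2 : ℝ)]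
      exact mul_le_mul_of_nonneg_left w2 (by positivity)
    have hr1 : 1 / (8 / 9 : ℝ) + ((2 : ℝ) + 1 / 100) / υ ≤ r0 + 1 := by
      have h1 : ((2 : ℝ) + 1 / 100) / υ = (67 / 32) / τ := by
        rw [hυ]
        field_simp
        norm_num
      have h2 : (67 / 32 : ℝ) / τ ≤ (r0 : ℝ) - 1 / 8 := by
        rw [div_le_iff₀ hτ0]
        exact hr0
      rw [h1]
      linarith
    have halm := almost Y (by omega) (τ / 4) υ (8 / 9) ((2 : ℝ) + 1 / 100) r0 (by rw [hυ]; linarith)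
      hυ0 (by rw [hυ]; linarith) (by norm_num) hr1 (2 * P * p + 1) (by omega) hsize hw
      (fun q hq hqd => hsq q hq (by
        rw [hGA0]
        exact_mod_cast hqd))
    refine ⟨hlo, ?_, halm.1, fun q hq hqd => le_trans ?_ (halm.2 q hq hqd)⟩
    · have h1 : ((P : ℕ) : ℝ) ≤ ((M + Q : ℕ) : ℝ) := by exact_mod_cast hup
      push_cast at h1
      linarith
    · apply Real.rpow_le_rpow hp0.le _ (by linarith)
      rw [hYr]
      linarith

end Pool.Agent.K3h33.CL
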