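import Pool.Agent.K3h33.CL.Lin5

/-! Clusters of almost primes between `x` and `x + x ^ θ`, real `x`. -/

set_option autoImplicit false

namespace Pool.Agent.K3h33.CL

open Finset Filter Polynomial

theorem real_sys5 (r : ℕ) (τ θ : ℝ) (hτ : 0 < τ) (hτθ : τ < θ) (hθ : θ ≤ 1)
    (hr : 25 < (24 * (r : ℝ) - 3) * τ) (g : ℤ[X]) (hg : g ≠ 0)
    (hadm : ∀ p : ℕ, p.Prime → ∃ n : ℤ, ¬ (p : ℤ) ∣ n * g.eval n) (m : ℕ) :
    ∃ K : ℕ, ∀ S : Finset ℕ, K ≤ S.card → ∃ (s : ℕ) (δ : ℝ), 0 < δ ∧ ∀ l : ℕ,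
      ∃ B : ℕ, ∀ᶠ x : ℝ in atTop, ∃ H ⊆ S, H.card = m ∧ ∃ n d : ℕ, 1 ≤ d ∧
        (d : ℝ) ≤ Real.log x ^ B ∧ ∀ j < l, ∀ h ∈ H,
          x < ((n + j * d + h : ℕ) : ℝ) ∧ ((n + j * d + h : ℕ) : ℝ) < x + x ^ θ ∧
          (n + j * d + h).primeFactorsList.length ≤ r ∧
          (∀ p : ℕ, p.Prime → p ∣ n + j * d + h → x ^ (τ / 4) ≤ p) ∧
          g.eval ((n + j * d + h : ℕ) : ℤ) ≠ 0 ∧
          (g.eval ((n + j * d + h : ℕ) : ℤ)).natAbs.primeFactorsList.length ≤ s ∧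
          ∀ p : ℕ, p.Prime → (p : ℤ) ∣ g.eval ((n + j * d + h : ℕ) : ℤ) → x ^ δ ≤ p := by
  obtain ⟨τ', hτ'⟩ : ∃ τ' : ℝ, τ' = (2 * τ + θ) / 3 := ⟨_, rfl⟩
  obtain ⟨θ', hθ'⟩ : ∃ θ' : ℝ, θ' = (τ + 2 * θ) / 3 := ⟨_, rfl⟩
  have h1 : τ < τ' := by rw [hτ']; linarith
  have h2 : τ' < θ' := by rw [hτ', hθ']; linarith
  have h3 : θ' < θ := by rw [hθ']; linarith
  have hr' : 25 < (24 * (r : ℝ) - 3) * τ' := by
    have h4 : 0 < 24 * (r : ℝ) - 3 := by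
      by_contra h5
      push Not at h5
      nlinarith
    nlinarith
  obtain ⟨K, hK⟩ := lin_sys5 g hg hadm r τ' θ' (by linarith) h2 (by linarith) hr' m
  refine ⟨K, fun S hS => ?_⟩
  obtain ⟨s, δ, hδ, hl⟩ := hK S hS
  refine ⟨s, δ / 2, by linarith, fun l => ?_⟩
  obtain ⟨B, hB⟩ := hl l
  refine ⟨B, ?_⟩
  have hfl : Tendsto (fun x : ℝ => ⌊x⌋₊) atTop atTop := tendsto_nat_floor_atTop
  have ev2 : ∀ᶠ x : ℝ in atTop, (2 : ℝ) ^ (τ' / 4) ≤ x ^ (τ' / 4 - τ / 4) :=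
    (tendsto_rpow_atTop (by linarith)).eventually_ge_atTop _
  have ev3 : ∀ᶠ x : ℝ in atTop, (2 : ℝ) ^ δ ≤ x ^ (δ - δ / 2) :=
    (tendsto_rpow_atTop (by linarith)).eventually_ge_atTop _
  have ev4 : ∀ᶠ x : ℝ in atTop, (3 : ℝ) ≤ x ^ (δ / 2) :=
    (tendsto_rpow_atTop (by linarith)).eventually_ge_atTop _
  filter_upwards [hfl.eventually hB, ev2, ev3, ev4, eventually_ge_atTop (3 : ℝ)]
    with x hx e2 e3 e4 e5
  obtain ⟨H, hH, hHc, n, d, hd1, hd2, hj⟩ := hx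
  have hx0 : 0 < x := by linarith
  obtain ⟨N, hN⟩ : ∃ N : ℕ, N = ⌊x⌋₊ := ⟨_, rfl⟩
  rw [← hN] at hd2 hj
  have hNx : (N : ℝ) ≤ x := by rw [hN]; exact Nat.floor_le hx0.le
  have hxN : x < N + 1 := by rw [hN]; exact Nat.lt_floor_add_one x
  have hN1 : (1 : ℝ) < N := by linarith
  have hN0 : (0 : ℝ) < N := by linarith
  have hN2 : x ≤ 2 * N := by linarith
  have hpow : ∀ a b : ℝ, 0 < a → (2 : ℝ) ^ a ≤ x ^ (a - b) → x ^ b ≤ (N : ℝ) ^ a := by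
    intro a b ha hab
    have k1 : x ^ a ≤ (2 * N : ℝ) ^ a := Real.rpow_le_rpow hx0.le hN2 ha.le
    rw [Real.mul_rpow (by norm_num) hN0.le] at k1
    have k2 : x ^ a = x ^ (a - b) * x ^ b := by
      rw [← Real.rpow_add hx0]
      congr 1
      ring
    have k3 : (2 : ℝ) ^ a * x ^ b ≤ x ^ a := by
      rw [k2]
      exact mul_le_mul_of_nonneg_right hab (by positivity)
    have k4 : (2 : ℝ) ^ a * x ^ b ≤ (2 : ℝ) ^ a * (N : ℝ) ^ a := k3.trans k1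
    exact le_of_mul_le_mul_left k4 (by positivity)
  have p1 := hpow (τ' / 4) (τ / 4) (by linarith) e2
  have p2 := hpow δ (δ / 2) hδ e3
  refine ⟨H, hH, hHc, n, d, hd1, ?_, fun j hjl h hh => ?_⟩
  · refine hd2.trans ?_
    apply pow_le_pow_left₀ (Real.log_nonneg hN1.le)
    exact Real.log_le_log hN0 hNx
  · obtain ⟨g1, g2⟩ := hj j hjl
    obtain ⟨g3, g4, g5, g6, g7⟩ := g2 h hh
    have g8 : g.eval ((n + j * d + h : ℕ) : ℤ) ≠ 0 := by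
      intro h0
      have k1 := g7 2 Nat.prime_two (by rw [h0]; exact dvd_zero _)
      have k2 : (3 : ℝ) ≤ ((2 : ℕ) : ℝ) := (e4.trans p2).trans k1
      norm_num at k2
    refine ⟨?_, ?_, g4, fun p hp hpd => p1.trans (g5 p hp hpd), g8, g6,
      fun p hp hpd => p2.trans (g7 p hp hpd)⟩
    · have k1 : N + 1 ≤ n + j * d + h := by omega
      have k2 : ((N : ℝ) + 1) ≤ ((n + j * d + h : ℕ) : ℝ) := by exact_mod_cast k1
      linarith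
    · have k1 : (N : ℝ) ^ θ' ≤ x ^ θ' := Real.rpow_le_rpow hN0.le hNx (by linarith)
      have k2 : x ^ θ' < x ^ θ := Real.rpow_lt_rpow_of_exponent_lt (by linarith) h3
      linarith

end Pool.Agent.K3h33.CL
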